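import Pool.Agent.H9R2.TF.Fin

/-!
# The electronic Thomas-Fermi energy is monotone under dilation

For fixed chemical potential the sign of the derivative of the energy under dilation is that of
`K + e` at the solution of the Thomas-Fermi equation, which is nonpositive by the theorem `ThmM0`
of `Pool.Agent.H9R2.TF.Fin`. The minimisers for a chemical potential `Φ > 0` exist and their
kinetic energy is bounded uniformly in the positions of the nuclei, so the second order error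
disappears under subdivision. Convexity and monotonicity of the energy in `λ` (charge can be moved
to infinity) give the energy at fixed `λ` as a supremum over `Φ > 0`.
-/

set_option autoImplicit false
open MeasureTheory Set Filter Topology Metric
open scoped RealInnerProductSpace BigOperators ENNReal
open Pool.Agent.Helper557 Pool.Agent.Helper557.TFP Pool.Agent.H9R2.TF

namespace Pool.Agent.Results.MP_405077_mp.DilationMonotone

/-! ### one-variable lemmas -/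

lemma mono_of_quad (f : ℝ → ℝ) (C : ℝ) (hC : 0 ≤ C)
    (h : ∀ l t : ℝ, 0 < l → 1 ≤ t → f (l / t) ≤ f l + C * (t - 1) ^ 2) {a b : ℝ} (ha : 0 < a) (hab : a ≤ b) :
    f a ≤ f b := by
  have hb : 0 < b := ha.trans_le hab
  set L := Real.log (b / a) with hL
  have hL0 : 0 ≤ L := Real.log_nonneg (by rwa [le_div_iff₀ ha, one_mul])
  have step : ∀ (t : ℝ), 1 ≤ t → ∀ n : ℕ, f (b / t ^ n) ≤ f b + n * (C * (t - 1) ^ 2) := by
    intro t ht n
    have ht0 : 0 < t := by linarith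
    induction n with
    | zero => simp
    | succ n ih =>
      have h1 := h (b / t ^ n) t (by positivity) ht
      have e : b / t ^ n / t = b / t ^ (n + 1) := by rw [pow_succ, div_div]
      rw [e] at h1
      push_cast
      linarith
  have key : ∀ n : ℕ, L < n → f a ≤ f b + 4 * C * L ^ 2 / n := by
    intro n hn
    have hn0 : (0 : ℝ) < n := hL0.trans_lt hn
    set t := Real.exp (L / n) with ht
    have ht1 : 1 ≤ t := Real.one_le_exp (by positivity)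
    have h1 := step t ht1 n
    have e1 : t ^ n = b / a := by
      rw [ht, ← Real.exp_nat_mul, mul_div_cancel₀ _ hn0.ne', hL, Real.exp_log (by positivity)]
    have e2 : b / t ^ n = a := by rw [e1]; field_simp
    rw [e2] at h1
    have h2 : t - 1 ≤ 2 * (L / n) := by
      have h3 := Real.abs_exp_sub_one_le (x := L / n) (by
        rw [abs_of_nonneg (by positivity), div_le_one hn0]; exact hn.le)
      rw [abs_of_nonneg (show (0:ℝ) ≤ L / n by positivity)] at h3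
      exact (le_abs_self _).trans h3
    have h4 : (t - 1) ^ 2 ≤ (2 * (L / n)) ^ 2 := pow_le_pow_left₀ (by linarith) h2 2
    have h5 : (n : ℝ) * (C * (t - 1) ^ 2) ≤ n * (C * (2 * (L / n)) ^ 2) := by gcongr
    have h6 : (n : ℝ) * (C * (2 * (L / n)) ^ 2) = 4 * C * L ^ 2 / n := by field_simp; ring
    linarith
  have lim : Tendsto (fun n : ℕ => f b + 4 * C * L ^ 2 / n) atTop (𝓝 (f b + 0)) :=
    tendsto_const_nhds.add (tendsto_const_div_atTop_nhds_zero_nat _)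
  rw [add_zero] at lim
  refine ge_of_tendsto lim ?_
  obtain ⟨N, hN⟩ := exists_nat_gt L
  filter_upwards [eventually_ge_atTop N] with n hn
  exact key n (hN.trans_le (by exact_mod_cast hn))

lemma subgrad (f : ℝ → ℝ) (hf : ConvexOn ℝ (Ici 0) f) (ha : AntitoneOn f (Ici 0)) {lam : ℝ} (hl : 0 < lam) :
    ∃ Φ : ℝ, 0 ≤ Φ ∧ ∀ μ, 0 ≤ μ → f lam - Φ * (μ - lam) ≤ f μ := by
  set S : Set ℝ := {s | ∃ μ, 0 ≤ μ ∧ μ < lam ∧ s = (f lam - f μ) / (lam - μ)} with hS
  have hub : ∀ ν, lam < ν → ∀ s ∈ S, s ≤ (f ν - f lam) / (ν - lam) := by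
    rintro ν hν s ⟨μ, h0, h1, rfl⟩
    exact hf.slope_mono_adjacent (mem_Ici.2 h0) (mem_Ici.2 (hl.le.trans hν.le)) h1 hν
  have hne : S.Nonempty := ⟨_, 0, le_rfl, hl, rfl⟩
  have hbd : BddAbove S := ⟨_, fun s hs => hub (lam + 1) (by linarith) s hs⟩
  refine ⟨- sSup S, ?_, ?_⟩
  · rw [neg_nonneg]
    refine csSup_le hne (fun s hs => (hub (lam + 1) (by linarith) s hs).trans ?_)
    have := ha (mem_Ici.2 hl.le) (mem_Ici.2 (by linarith : (0:ℝ) ≤ lam + 1)) (by linarith)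
    rw [add_sub_cancel_left, div_one]
    linarith
  · intro μ hμ
    rcases lt_trichotomy μ lam with h | h | h
    · have h1 : (f lam - f μ) / (lam - μ) ≤ sSup S := le_csSup hbd ⟨μ, hμ, h, rfl⟩
      rw [div_le_iff₀ (by linarith)] at h1
      linarith
    · subst h; simp
    · have h1 : sSup S ≤ (f μ - f lam) / (μ - lam) := csSup_le hne (fun s hs => hub μ h s hs)
      rw [le_div_iff₀ (by linarith)] at h1
      linarith

lemma conv53 {a b t : ℝ} (ha : 0 ≤ a) (hb : 0 ≤ b) (ht0 : 0 < t) (ht1 : t < 1) :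
    (a + b) ^ (5/3 : ℝ) ≤ (1 - t) * (a / (1 - t)) ^ (5/3 : ℝ) + t * (b / t) ^ (5/3 : ℝ) := by
  have h := (convexOn_rpow (p := (5/3 : ℝ)) (by norm_num)).2
    (mem_Ici.2 (div_nonneg ha (show (0:ℝ) ≤ 1 - t by linarith))) (mem_Ici.2 (div_nonneg hb ht0.le))
    (show (0:ℝ) ≤ 1 - t by linarith) ht0.le (by ring)
  simp only [smul_eq_mul] at h
  have ht : 1 - t ≠ 0 := by linarith
  have e1 : (1 - t) * (a / (1 - t)) = a := by field_simp
  have e2 : t * (b / t) = b := by field_simp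
  rwa [e1, e2] at h

/-! ### the dominating density -/

lemma int52 (r : ℝ) : IntegrableOn (fun u : E3 => ‖u‖ ^ (-(5/2) : ℝ)) (ball 0 r) := by
  rcases le_or_gt r 0 with h | h
  · rw [ball_eq_empty.2 h]; exact integrableOn_empty
  rw [integrableOn_fun_norm_addHaar volume (f := fun y : ℝ => y ^ (-(5/2) : ℝ))]
  have hfr : Module.finrank ℝ E3 = 3 := finrank_euclideanSpace_fin
  rw [hfr]
  have h1 : IntegrableOn (fun y : ℝ => y ^ (-(1/2) : ℝ)) (Ioo 0 r) :=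
    (intervalIntegral.integrableOn_Ioo_rpow_iff h).mpr (by norm_num)
  refine h1.congr_fun ?_ measurableSet_Ioo
  intro y hy
  have hy0 : 0 < y := hy.1
  show y ^ (-(1/2) : ℝ) = y ^ (3 - 1) • y ^ (-(5/2) : ℝ)
  rw [smul_eq_mul, ← Real.rpow_natCast, ← Real.rpow_add hy0]
  norm_num

/-- the dominating density of one nucleus -/
noncomputable def qq (Z Φ : ℝ) (u : E3) : ℝ := be (Z / ‖u‖ - Φ)

lemma qq_nonneg (Z Φ : ℝ) (u : E3) : 0 ≤ qq Z Φ u := be_nonneg _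

lemma qq_meas (Z Φ : ℝ) : Measurable (qq Z Φ) :=
  be_meas.comp ((measurable_const.div measurable_norm).sub_const Φ)

lemma qq_nice {Z Φ : ℝ} (hZ : 0 ≤ Z) (hΦ : 0 < Φ) : Nice (qq Z Φ) := by
  set r : ℝ := Z / Φ + 1 with hr
  have hr0 : 0 < r := by positivity
  set D : E3 → ℝ := (ball (0 : E3) r).indicator (fun u => ‖u‖ ^ (-(5/2) : ℝ)) with hD
  have hDi : Integrable D := (integrable_indicator_iff measurableSet_ball).2 (int52 r)
  have hD0 : ∀ u, 0 ≤ D u := fun u => indicator_nonneg (fun u _ => Real.rpow_nonneg (norm_nonneg _) _) u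
  have key : ∀ u, qq Z Φ u ≤ (Z ^ (3/2 : ℝ) * r) * D u ∧ qq Z Φ u ^ (5/3 : ℝ) ≤ Z ^ (5/2 : ℝ) * D u := by
    intro u
    have zero : qq Z Φ u = 0 → qq Z Φ u ≤ (Z ^ (3/2 : ℝ) * r) * D u ∧ qq Z Φ u ^ (5/3 : ℝ) ≤ Z ^ (5/2 : ℝ) * D u := by
      intro h
      have := hD0 u
      rw [h, Real.zero_rpow (by norm_num)]
      constructor <;> positivity
    by_cases hu : u ∈ ball (0 : E3) r
    swap
    · apply zero
      apply be_zero_of
      have h1 : r ≤ ‖u‖ := by simpa using hu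
      have h2 : Z / ‖u‖ ≤ Φ := by
        rw [div_le_iff₀ (hr0.trans_le h1)]
        have : Φ * r ≤ Φ * ‖u‖ := mul_le_mul_of_nonneg_left h1 hΦ.le
        have e : Φ * r = Z + Φ := by rw [hr]; field_simp
        linarith
      linarith
    rcases eq_or_lt_of_le (norm_nonneg u) with h0 | h0
    · apply zero
      apply be_zero_of
      rw [← h0, div_zero]; linarith
    have hDu : D u = ‖u‖ ^ (-(5/2) : ℝ) := indicator_of_mem hu _
    have hs : ‖u‖ < r := by simpa using hu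
    have h1 : qq Z Φ u ≤ (Z / ‖u‖) ^ (3/2 : ℝ) := by
      unfold qq
      rw [← be_eq]
      exact be_mono (by linarith)
    have hZu : 0 ≤ Z / ‖u‖ := by positivity
    rw [hDu]
    constructor
    · refine h1.trans ?_
      rw [Real.div_rpow hZ h0.le, div_eq_mul_inv, ← Real.rpow_neg h0.le, mul_assoc]
      refine mul_le_mul_of_nonneg_left ?_ (Real.rpow_nonneg hZ _)
      have : ‖u‖ ^ (-(3/2) : ℝ) = ‖u‖ * ‖u‖ ^ (-(5/2) : ℝ) := by
        rw [← Real.rpow_one_add' h0.le (by norm_num)]; norm_num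
      rw [this]
      exact mul_le_mul_of_nonneg_right hs.le (Real.rpow_nonneg h0.le _)
    · refine (Real.rpow_le_rpow (qq_nonneg _ _ _) h1 (by norm_num)).trans ?_
      rw [← Real.rpow_mul hZu, Real.div_rpow hZ h0.le, div_eq_mul_inv, ← Real.rpow_neg h0.le]
      norm_num
  refine ⟨qq_meas Z Φ, ?_, ?_⟩
  · refine (hDi.const_mul (Z ^ (3/2 : ℝ) * r)).mono' (qq_meas Z Φ).aestronglyMeasurable (Eventually.of_forall (fun u => ?_))
    rw [Real.norm_of_nonneg (qq_nonneg _ _ _)]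
    exact (key u).1
  · refine (hDi.const_mul (Z ^ (5/2 : ℝ))).mono' ((qq_meas Z Φ).abs.pow_const _).aestronglyMeasurable
      (Eventually.of_forall (fun u => ?_))
    rw [Real.norm_of_nonneg (Real.rpow_nonneg (abs_nonneg _) _), abs_of_nonneg (qq_nonneg _ _ _)]
    exact (key u).2

lemma nice_shift {g : E3 → ℝ} (hg : Nice g) (s : E3) : Nice (fun x => g (x - s)) :=
  ⟨hg.1.comp (measurable_id.sub_const s), hg.2.1.comp_sub_right s, hg.2.2.comp_sub_right s⟩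

lemma nice_zero : Nice (fun _ => (0 : ℝ)) := Cl.zero.1

lemma nice_sum {k : ℕ} (g : Fin k → E3 → ℝ) (hg : ∀ j, Nice (g j)) : Nice (fun x => ∑ j, g j x) := by
  classical
  have : ∀ S : Finset (Fin k), Nice (fun x => ∑ j ∈ S, g j x) := by
    intro S
    induction S using Finset.induction_on with
    | empty => simpa using nice_zero
    | insert a S ha ih =>
      have e : (fun x => ∑ j ∈ insert a S, g j x) = fun x => g a x + ∑ j ∈ S, g j x := by
        funext x; rw [Finset.sum_insert ha]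
      rw [e]; exact nice_add (hg a) ih
  exact this _

variable {k : ℕ} {z : Fin k → ℝ} {R : Fin k → E3}

lemma dom0 (hz : ∀ j, 0 ≤ z j) {Φ : ℝ} (hΦ : 0 < Φ) (x : E3) :
    be (VV z R x - Φ) = 0 ∨ ∃ j, be (VV z R x - Φ) ≤ qq (∑ j, z j) Φ (x - R j) := by
  rcases (Finset.univ : Finset (Fin k)).eq_empty_or_nonempty with h | h
  · left
    apply be_zero_of
    unfold VV
    rw [h, Finset.sum_empty]; linarith
  · right
    obtain ⟨j0, _, hj⟩ := Finset.exists_max_image Finset.univ (fun j => 1 / ‖x - R j‖) h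
    refine ⟨j0, ?_⟩
    unfold qq
    apply be_mono
    have : VV z R x ≤ (∑ j, z j) / ‖x - R j0‖ := by
      unfold VV
      rw [Finset.sum_div]
      refine Finset.sum_le_sum (fun j _ => ?_)
      have := mul_le_mul_of_nonneg_left (hj j (Finset.mem_univ j)) (hz j)
      rwa [mul_one_div, mul_one_div] at this
    linarith

lemma dom1 (hz : ∀ j, 0 ≤ z j) {Φ : ℝ} (hΦ : 0 < Φ) (x : E3) :
    be (VV z R x - Φ) ≤ ∑ j, qq (∑ j, z j) Φ (x - R j) := by
  rcases dom0 (R := R) hz hΦ x with h | ⟨j, h⟩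
  · rw [h]; exact Finset.sum_nonneg (fun j _ => qq_nonneg _ _ _)
  · exact h.trans (Finset.single_le_sum (f := fun j => qq (∑ j, z j) Φ (x - R j)) (fun j _ => qq_nonneg _ _ _) (Finset.mem_univ j))

lemma dom2 (hz : ∀ j, 0 ≤ z j) {Φ : ℝ} (hΦ : 0 < Φ) (x : E3) :
    be (VV z R x - Φ) ^ (5/3 : ℝ) ≤ ∑ j, qq (∑ j, z j) Φ (x - R j) ^ (5/3 : ℝ) := by
  rcases dom0 (R := R) hz hΦ x with h | ⟨j, h⟩
  · rw [h, Real.zero_rpow (by norm_num)]
    exact Finset.sum_nonneg (fun j _ => Real.rpow_nonneg (qq_nonneg _ _ _) _)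
  · exact (Real.rpow_le_rpow (be_nonneg _) h (by norm_num)).trans
      (Finset.single_le_sum (f := fun j => qq (∑ j, z j) Φ (x - R j) ^ (5/3 : ℝ))
      (fun j _ => Real.rpow_nonneg (qq_nonneg _ _ _) _) (Finset.mem_univ j))

lemma sumz_nonneg (hz : ∀ j, 0 ≤ z j) : 0 ≤ ∑ j, z j := Finset.sum_nonneg (fun j _ => hz j)

lemma rhoh_nice (hz : ∀ j, 0 ≤ z j) {Φ : ℝ} (hΦ : 0 < Φ) : Nice (fun x => be (VV z R x - Φ)) := by
  refine nice_of_le (nice_sum (fun j x => qq (∑ j, z j) Φ (x - R j)) (fun j => nice_shift (qq_nice (sumz_nonneg hz) hΦ) _))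
    (be_meas.comp ((VV_meas z R).sub_const Φ)) (fun x => ?_)
  rw [abs_of_nonneg (be_nonneg _)]
  exact (dom1 hz hΦ x).trans (le_abs_self _)

lemma kin_bound (hz : ∀ j, 0 ≤ z j) {Φ : ℝ} (hΦ : 0 < Φ) {ρ : E3 → ℝ} (hρ : ELs z R Φ ρ) :
    ∫ x, ρ x ^ (5/3 : ℝ) ≤ k * ∫ x, qq (∑ j, z j) Φ x ^ (5/3 : ℝ) := by
  have hq := qq_nice (sumz_nonneg hz) hΦ
  have hqi : Integrable (fun x => qq (∑ j, z j) Φ x ^ (5/3 : ℝ)) := by
    refine hq.2.2.congr (Eventually.of_forall (fun x => ?_))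
    simp only
    rw [abs_of_nonneg (qq_nonneg _ _ _)]
  have hρi : Integrable (fun x => ρ x ^ (5/3 : ℝ)) := by
    refine hρ.nice.2.2.congr (Eventually.of_forall (fun x => ?_))
    simp only
    rw [abs_of_nonneg (hρ.nonneg x)]
  have e : ∑ j : Fin k, ∫ x, qq (∑ j, z j) Φ (x - R j) ^ (5/3 : ℝ) = k * ∫ x, qq (∑ j, z j) Φ x ^ (5/3 : ℝ) := by
    rw [Finset.sum_congr rfl (fun j _ => integral_sub_right_eq_self (fun x => qq (∑ j, z j) Φ x ^ (5/3 : ℝ)) (R j))]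
    simp
  rw [← e, ← integral_finsetSum _ (fun j _ => hqi.comp_sub_right (R j))]
  refine integral_mono hρi (integrable_finsetSum _ (fun j _ => hqi.comp_sub_right (R j))) (fun x => ?_)
  refine (Real.rpow_le_rpow (hρ.nonneg x) ?_ (by norm_num)).trans (dom2 (R := R) hz hΦ x)
  rw [hρ.eq]
  apply be_mono
  have := pot_nonneg hρ.nonneg x
  linarith

lemma exists_ELs (hz : ∀ j, 0 ≤ z j) {Φ : ℝ} (hΦ : 0 < Φ) : ∃ ρ, ELs z R Φ ρ := by
  have hn := rhoh_nice (R := R) hz hΦ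
  obtain ⟨τ, hτ, he⟩ := exists_EL (h := fun x => VV z R x - Φ) (kop_full hn) hn (fun x => be_nonneg _)
    ((VV_meas z R).sub_const _) (((vint z R hn).sub (hn.2.1.const_mul Φ)).congr (Eventually.of_forall (fun x => by
      simp only [Pi.sub_apply]; ring)))
  refine ⟨τ, hτ.nice hn, fun x => ?_⟩
  have h1 := pot_nonneg (fun y => (hτ.2 y).1) x
  have h2 : be (VV z R x - Φ - pot τ x) ≤ be (VV z R x - Φ) := be_mono (by linarith)
  have h3 := he x
  rw [min_eq_right h2] at h3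
  rw [h3]
  congr 1
  ring

lemma int53 {ρ : E3 → ℝ} (h : Nice ρ) (h0 : ∀ x, 0 ≤ ρ x) : Integrable (fun x => ρ x ^ (5/3 : ℝ)) := by
  refine h.2.2.congr (Eventually.of_forall (fun x => ?_))
  simp only
  rw [abs_of_nonneg (h0 x)]

lemma int23 {ρ σ : E3 → ℝ} (hρ : Nice ρ) (hρ0 : ∀ x, 0 ≤ ρ x) (hσ : Nice σ) (hσ0 : ∀ x, 0 ≤ σ x) :
    Integrable (fun x => ρ x ^ (2/3 : ℝ) * σ x) := by
  refine ((int53 hρ hρ0).add (int53 hσ hσ0)).mono' ((hρ.1.pow_const _).mul hσ.1).aestronglyMeasurable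
    (Eventually.of_forall (fun x => ?_))
  rw [Real.norm_of_nonneg (mul_nonneg (Real.rpow_nonneg (hρ0 x) _) (hσ0 x))]
  simp only [Pi.add_apply]
  have e : ∀ a : ℝ, 0 ≤ a → a ^ (5/3 : ℝ) = a ^ (2/3 : ℝ) * a := by
    intro a ha
    rw [← Real.rpow_add_one' ha (by norm_num)]; norm_num
  rcases le_total (ρ x) (σ x) with h | h
  · have h1 : ρ x ^ (2/3 : ℝ) * σ x ≤ σ x ^ (2/3 : ℝ) * σ x :=
      mul_le_mul_of_nonneg_right (Real.rpow_le_rpow (hρ0 x) h (by norm_num)) (hσ0 x)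
    rw [← e _ (hσ0 x)] at h1
    have := Real.rpow_nonneg (hρ0 x) (5/3)
    linarith
  · have h1 : ρ x ^ (2/3 : ℝ) * σ x ≤ ρ x ^ (2/3 : ℝ) * ρ x :=
      mul_le_mul_of_nonneg_left h (Real.rpow_nonneg (hρ0 x) _)
    rw [← e _ (hρ0 x)] at h1
    have := Real.rpow_nonneg (hσ0 x) (5/3)
    linarith

lemma EL_min {Φ : ℝ} {ρ : E3 → ℝ} (hρ : ELs z R Φ ρ) {σ : E3 → ℝ} (hσ : Adm σ) :
    EF z R ρ + Φ * (∫ x, ρ x) ≤ EF z R σ + Φ * ∫ x, σ x := by
  have nρ := hρ.nice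
  have ρ0 := hρ.nonneg
  have nσ := nice_of_adm hσ
  have σ0 := hσ.2.1
  set d : E3 → ℝ := fun x => σ x - ρ x with hd
  have nd : Nice d := nice_sub' nσ nρ
  have i1 : Integrable (fun x => ρ x ^ (2/3 : ℝ) * (σ x - ρ x)) := by
    refine ((int23 nρ ρ0 nσ σ0).sub (int23 nρ ρ0 nρ ρ0)).congr (Eventually.of_forall (fun x => ?_))
    simp only [Pi.sub_apply]; ring
  -- kinetic
  have k1 : ∫ x, ρ x ^ (2/3 : ℝ) * (σ x - ρ x) ≤ 3/5 * (∫ x, σ x ^ (5/3 : ℝ)) - 3/5 * ∫ x, ρ x ^ (5/3 : ℝ) := by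
    rw [← integral_const_mul, ← integral_const_mul, ← integral_sub ((int53 nσ σ0).const_mul _) ((int53 nρ ρ0).const_mul _)]
    refine integral_mono i1 (((int53 nσ σ0).const_mul _).sub ((int53 nρ ρ0).const_mul _)) (fun x => ?_)
    simp only
    have := sc2 (σ0 x) (ρ0 x)
    linarith
  -- nuclear
  have k2 : ∫ x, VV z R x * d x = (∫ x, VV z R x * σ x) - ∫ x, VV z R x * ρ x := by
    rw [← integral_sub (vint z R nσ) (vint z R nρ)]
    congr 1; funext x; simp only [hd]; ring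
  -- Coulomb
  have k3 : ∫ x, σ x * pot σ x = (∫ x, ρ x * pot ρ x) + 2 * (∫ x, d x * pot ρ x) + ∫ x, d x * pot d x := by
    have h := (kop_full (ρh := ρ) nρ).exp nρ nd 1
    have e1 : (fun y => ρ y + 1 * d y) = σ := by funext y; simp only [hd]; ring
    have e2 : (fun x => (ρ x + 1 * d x) * pot (fun y => ρ y + 1 * d y) x) = fun x => σ x * pot σ x := by
      rw [e1]; funext x; simp only [hd]; ring
    rw [e2] at h
    rw [h]; ring
  have k4 := pot_pos nd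
  have k5 : 0 ≤ ∫ x, d x * (ρ x ^ (2/3 : ℝ) - VV z R x + pot ρ x + Φ) := by
    refine integral_nonneg (fun x => ?_)
    simp only [Pi.zero_apply]
    set u := VV z R x - pot ρ x - Φ with hu
    have e1 : ρ x ^ (2/3 : ℝ) = max u 0 := by rw [hρ.eq x, be_pow]
    have e2 : ρ x ^ (2/3 : ℝ) - VV z R x + pot ρ x + Φ = max u 0 - u := by rw [e1, hu]; ring
    rw [e2]
    rcases le_total u 0 with h | h
    · have e3 : ρ x = 0 := by rw [hρ.eq x]; exact be_zero_of h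
      have e4 : d x = σ x := by simp only [hd]; rw [e3, sub_zero]
      rw [e4, max_eq_right h]
      exact mul_nonneg (σ0 x) (by linarith)
    · rw [max_eq_left h, sub_self, mul_zero]
  have i2 := vint z R nd
  have i3 : Integrable (fun x => d x * pot ρ x) := TF_E1_int d ρ nd.2.1 nρ
  have k6 : ∫ x, d x * (ρ x ^ (2/3 : ℝ) - VV z R x + pot ρ x + Φ)
      = (∫ x, ρ x ^ (2/3 : ℝ) * (σ x - ρ x)) - (∫ x, VV z R x * d x) + (∫ x, d x * pot ρ x) + Φ * ∫ x, d x := by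
    have i12 : Integrable (fun x => ρ x ^ (2/3 : ℝ) * (σ x - ρ x) - VV z R x * d x) := i1.sub i2
    have i123 : Integrable (fun x => ρ x ^ (2/3 : ℝ) * (σ x - ρ x) - VV z R x * d x + d x * pot ρ x) := i12.add i3
    rw [← integral_sub i1 i2, ← integral_add i12 i3, ← integral_const_mul, ← integral_add i123 (nd.2.1.const_mul Φ)]
    congr 1; funext x; simp only [hd]; ring
  have k7 : ∫ x, d x = (∫ x, σ x) - ∫ x, ρ x := integral_sub nσ.2.1 nρ.2.1
  unfold EF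
  rw [k6, k7, k2] at k5
  nlinarith [k5, k1, k3, k4]

/-! ### scaling -/

/-- The dilated density `x ↦ t³ ρ(t x)`. -/
noncomputable def sc (t : ℝ) (ρ : E3 → ℝ) (x : E3) : ℝ := t ^ 3 * ρ (t • x)

lemma int_smul {t : ℝ} (ht : 0 < t) (f : E3 → ℝ) : ∫ x, f (t • x) = (t ^ 3)⁻¹ * ∫ x, f x := by
  rw [Measure.integral_comp_smul volume f t, finrank_euclideanSpace_fin, abs_of_pos (by positivity), smul_eq_mul]

lemma sc_adm {t : ℝ} (ht : 0 < t) {ρ : E3 → ℝ} (h : Adm ρ) : Adm (sc t ρ) := by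
  refine ⟨measurable_const.mul (h.1.comp (measurable_const_smul t)), fun x => mul_nonneg (by positivity) (h.2.1 _), ?_, ?_⟩
  · exact (h.2.2.1.comp_smul ht.ne').const_mul _
  · refine ((h.2.2.2.comp_smul ht.ne').const_mul ((t ^ 3) ^ (5/3 : ℝ))).congr (Eventually.of_forall (fun x => ?_))
    simp only [sc]
    rw [Real.mul_rpow (by positivity) (h.2.1 _)]

lemma sc_mass {t : ℝ} (ht : 0 < t) (ρ : E3 → ℝ) : ∫ x, sc t ρ x = ∫ x, ρ x := by
  unfold sc
  rw [integral_const_mul, int_smul ht]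
  field_simp

lemma sc_kin {t : ℝ} (ht : 0 < t) {ρ : E3 → ℝ} (h0 : ∀ x, 0 ≤ ρ x) :
    ∫ x, sc t ρ x ^ (5/3 : ℝ) = t ^ 2 * ∫ x, ρ x ^ (5/3 : ℝ) := by
  have e : (fun x => sc t ρ x ^ (5/3 : ℝ)) = fun x => (t ^ 5) * (fun y => ρ y ^ (5/3 : ℝ)) (t • x) := by
    funext x
    simp only [sc]
    rw [Real.mul_rpow (by positivity) (h0 _)]
    congr 1
    rw [← Real.rpow_natCast, ← Real.rpow_natCast, ← Real.rpow_mul ht.le]
    norm_num
  rw [e, integral_const_mul, int_smul ht (fun y => ρ y ^ (5/3 : ℝ))]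
  field_simp

lemma norm_sc {t : ℝ} (ht : 0 < t) (x r : E3) : ‖t • x - r‖ = t * ‖x - t⁻¹ • r‖ := by
  have : t • x - r = t • (x - t⁻¹ • r) := by rw [smul_sub, smul_inv_smul₀ ht.ne']
  rw [this, norm_smul, Real.norm_of_nonneg ht.le]

lemma sc_VV {t : ℝ} (ht : 0 < t) (z : Fin k → ℝ) (R : Fin k → E3) (ρ : E3 → ℝ) :
    ∫ x, VV z (fun j => t⁻¹ • R j) x * sc t ρ x = t * ∫ x, VV z R x * ρ x := by
  have e : (fun x => VV z (fun j => t⁻¹ • R j) x * sc t ρ x) = fun x => t ^ 4 * (fun y => VV z R y * ρ y) (t • x) := by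
    funext x
    have h1 : VV z (fun j => t⁻¹ • R j) x = t * VV z R (t • x) := by
      unfold VV
      rw [Finset.mul_sum]
      refine Finset.sum_congr rfl (fun j _ => ?_)
      rw [norm_sc ht]
      rw [div_mul_eq_div_div, mul_div_assoc', mul_div_assoc', mul_div_cancel_left₀ _ ht.ne']
    rw [h1]
    simp only [sc]
    ring
  rw [e, integral_const_mul, int_smul ht (fun y => VV z R y * ρ y)]
  field_simp

lemma sc_pot {t : ℝ} (ht : 0 < t) (ρ : E3 → ℝ) (x : E3) : pot (sc t ρ) x = t * pot ρ (t • x) := by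
  unfold pot
  have e : (fun y => sc t ρ y / ‖x - y‖) = fun y => t ^ 4 * (fun y => ρ y / ‖t • x - y‖) (t • y) := by
    funext y
    simp only [sc]
    rw [← smul_sub, norm_smul, Real.norm_of_nonneg ht.le]
    rcases eq_or_ne ‖x - y‖ 0 with h | h
    · rw [h]; simp
    · field_simp
  rw [e, integral_const_mul, int_smul ht (fun y => ρ y / ‖t • x - y‖)]
  field_simp

lemma sc_D {t : ℝ} (ht : 0 < t) (ρ : E3 → ℝ) :
    ∫ x, sc t ρ x * pot (sc t ρ) x = t * ∫ x, ρ x * pot ρ x := by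
  have e : (fun x => sc t ρ x * pot (sc t ρ) x) = fun x => t ^ 4 * (fun y => ρ y * pot ρ y) (t • x) := by
    funext x
    rw [sc_pot ht]
    simp only [sc]
    ring
  rw [e, integral_const_mul, int_smul ht (fun y => ρ y * pot ρ y)]
  field_simp

lemma step (hz : ∀ j, 0 ≤ z j) {Φ : ℝ} (hΦ : 0 < Φ) {t : ℝ} (ht : 1 ≤ t) {ρ ρ' : E3 → ℝ} (hρ : ELs z R Φ ρ)
    (hρ' : ELs z (fun j => t⁻¹ • R j) Φ ρ') :
    EF z (fun j => t⁻¹ • R j) ρ' + Φ * (∫ x, ρ' x) ≤ EF z R ρ + Φ * (∫ x, ρ x)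
      + (3/5 * (k * ∫ x, qq (∑ j, z j) Φ x ^ (5/3 : ℝ))) * (t - 1) ^ 2 := by
  have ht0 : 0 < t := by linarith
  have h1 := EL_min hρ' (sc_adm ht0 (adm_of_nice hρ.nice hρ.nonneg))
  rw [sc_mass ht0] at h1
  unfold EF at h1 ⊢
  rw [sc_kin ht0 hρ.nonneg, sc_VV ht0, sc_D ht0] at h1
  have h2 := ThmM0 hz hΦ.le hρ
  rw [prod_pot hρ.nice] at h2
  have h3 := kin_bound hz hΦ hρ
  set K := ∫ x, ρ x ^ (5/3 : ℝ)
  set A := ∫ x, VV z R x * ρ x
  set D := ∫ x, ρ x * pot ρ x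
  have h4 : (t - 1) * (6/5 * K - A + 1/2 * D) ≤ 0 := mul_nonpos_of_nonneg_of_nonpos (by linarith) h2
  have h5 : (t - 1) ^ 2 * (3/5 * K) ≤ (t - 1) ^ 2 * (3/5 * (k * ∫ x, qq (∑ j, z j) Φ x ^ (5/3 : ℝ))) :=
    mul_le_mul_of_nonneg_left (by linarith) (by positivity)
  nlinarith [h1, h4, h5]

lemma H_mono (hz : ∀ j, 0 ≤ z j) (R : Fin k → E3) {Φ : ℝ} (hΦ : 0 < Φ) {a b : ℝ} (ha : 0 < a) (hab : a ≤ b)
    {ρ ρ' : E3 → ℝ} (hρ : ELs z (fun j => a • R j) Φ ρ) (hρ' : ELs z (fun j => b • R j) Φ ρ') :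
    EF z (fun j => a • R j) ρ + Φ * (∫ x, ρ x) ≤ EF z (fun j => b • R j) ρ' + Φ * (∫ x, ρ' x) := by
  choose τ hτ using fun l : ℝ => exists_ELs (R := fun j => l • R j) hz hΦ
  have uniq : ∀ (l : ℝ) (σ : E3 → ℝ), ELs z (fun j => l • R j) Φ σ →
      EF z (fun j => l • R j) σ + Φ * (∫ x, σ x) = EF z (fun j => l • R j) (τ l) + Φ * ∫ x, τ l x := by
    intro l σ hσ
    exact le_antisymm (EL_min hσ (adm_of_nice (hτ l).nice (hτ l).nonneg))
      (EL_min (hτ l) (adm_of_nice hσ.nice hσ.nonneg))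
  rw [uniq a ρ hρ, uniq b ρ' hρ']
  refine mono_of_quad (fun l => EF z (fun j => l • R j) (τ l) + Φ * ∫ x, τ l x)
    (3/5 * (k * ∫ x, qq (∑ j, z j) Φ x ^ (5/3 : ℝ))) ?_ ?_ ha hab
  · have : 0 ≤ ∫ x, qq (∑ j, z j) Φ x ^ (5/3 : ℝ) :=
      integral_nonneg (fun x => Real.rpow_nonneg (qq_nonneg _ _ _) _)
    positivity
  · intro l t hl ht
    have e : (fun j => (l / t) • R j) = fun j => t⁻¹ • (l • R j) := by
      funext j; rw [smul_smul]; congr 1; field_simp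
    have h1 := hτ (l / t)
    rw [e] at h1 ⊢
    exact step hz hΦ ht (hτ l) h1

/-! ### duality -/

/-- the electronic energy for `γ = 1` -/
noncomputable def VL (z : Fin k → ℝ) (R : Fin k → E3) (lam : ℝ) : ℝ :=
  sInf {E | ∃ ρ, Adm ρ ∧ ∫ x, ρ x = lam ∧ EF z R ρ = E}

/-- a bump of mass `m` -/
noncomputable def bump (m : ℝ) (x : E3) : ℝ :=
  (ball (0 : E3) 1).indicator (fun _ => m / (volume (ball (0 : E3) 1)).toReal) x

lemma bump_adm {m : ℝ} (hm : 0 ≤ m) : Adm (bump m) ∧ ∫ x, bump m x = m := by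
  have hv : (volume (ball (0 : E3) 1)) ≠ ⊤ := measure_ball_lt_top.ne
  have hv0 : 0 < (volume (ball (0 : E3) 1)).toReal :=
    ENNReal.toReal_pos (measure_ball_pos volume _ one_pos).ne' hv
  have hi : ∀ c : ℝ, Integrable ((ball (0 : E3) 1).indicator (fun _ => c)) := fun c =>
    (integrable_indicator_iff measurableSet_ball).2 (integrableOn_const hv)
  refine ⟨⟨measurable_const.indicator measurableSet_ball, fun x => indicator_nonneg (fun _ _ => by positivity) x, hi _, ?_⟩, ?_⟩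
  · refine (hi ((m / (volume (ball (0 : E3) 1)).toReal) ^ (5/3 : ℝ))).congr (Eventually.of_forall (fun x => ?_))
    simp only [bump]
    by_cases h : x ∈ ball (0 : E3) 1
    · rw [indicator_of_mem h, indicator_of_mem h]
    · rw [indicator_of_notMem h, indicator_of_notMem h, Real.zero_rpow (by norm_num)]
  · unfold bump
    rw [integral_indicator measurableSet_ball, setIntegral_const, smul_eq_mul, Measure.real]
    field_simp

lemma VL_ne (z : Fin k → ℝ) (R : Fin k → E3) {lam : ℝ} (hl : 0 ≤ lam) :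
    {E | ∃ ρ, Adm ρ ∧ ∫ x, ρ x = lam ∧ EF z R ρ = E}.Nonempty :=
  ⟨_, bump lam, (bump_adm hl).1, (bump_adm hl).2, rfl⟩

lemma VL_bdd (hz : ∀ j, 0 ≤ z j) (R : Fin k → E3) (lam : ℝ) :
    BddBelow {E | ∃ ρ, Adm ρ ∧ ∫ x, ρ x = lam ∧ EF z R ρ = E} := by
  obtain ⟨τ, hτ⟩ := exists_ELs (R := R) hz one_pos
  refine ⟨EF z R τ + 1 * (∫ x, τ x) - 1 * lam, ?_⟩
  rintro E ⟨ρ, h1, h2, rfl⟩
  have := EL_min hτ h1
  rw [h2] at this
  linarith

lemma VL_le (hz : ∀ j, 0 ≤ z j) {ρ : E3 → ℝ} (h : Adm ρ) : VL z R (∫ x, ρ x) ≤ EF z R ρ :=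
  csInf_le (VL_bdd hz R _) ⟨ρ, h, rfl, rfl⟩

lemma VL_near (z : Fin k → ℝ) (R : Fin k → E3) {lam ε : ℝ} (hl : 0 ≤ lam) (hε : 0 < ε) :
    ∃ ρ, Adm ρ ∧ ∫ x, ρ x = lam ∧ EF z R ρ < VL z R lam + ε := by
  obtain ⟨E, ⟨ρ, h1, h2, h3⟩, h4⟩ := exists_lt_of_csInf_lt (VL_ne z R hl) (lt_add_of_pos_right _ hε)
  exact ⟨ρ, h1, h2, h3 ▸ h4⟩

lemma EF_convex (z : Fin k → ℝ) (R : Fin k → E3) {ρ σ : E3 → ℝ} (hρ : Adm ρ) (hσ : Adm σ) {a b : ℝ} (ha : 0 ≤ a) (hb : 0 ≤ b)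
    (hab : a + b = 1) : Adm (fun x => a * ρ x + b * σ x) ∧
    EF z R (fun x => a * ρ x + b * σ x) ≤ a * EF z R ρ + b * EF z R σ := by
  have nρ := nice_of_adm hρ
  have nσ := nice_of_adm hσ
  have nc : Nice (fun x => a * ρ x + b * σ x) := nice_add (nice_smul nρ a) (nice_smul nσ b)
  have c0 : ∀ x, 0 ≤ a * ρ x + b * σ x := fun x => add_nonneg (mul_nonneg ha (hρ.2.1 x)) (mul_nonneg hb (hσ.2.1 x))
  refine ⟨adm_of_nice nc c0, ?_⟩
  set d : E3 → ℝ := fun x => σ x - ρ x with hd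
  have nd : Nice d := nice_sub' nσ nρ
  have e0 : (fun x => a * ρ x + b * σ x) = fun x => ρ x + b * d x := by
    funext x; simp only [hd]
    have : a = 1 - b := by linarith
    rw [this]; ring
  have h1 := (kop_full (ρh := ρ) nρ).exp nρ nd b
  have h2 := (kop_full (ρh := ρ) nρ).exp nρ nd 1
  have e1 : (fun y => ρ y + 1 * d y) = σ := by funext y; simp only [hd]; ring
  have e2 : (fun x => (ρ x + 1 * d x) * pot (fun y => ρ y + 1 * d y) x) = fun x => σ x * pot σ x := by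
    rw [e1]; funext x; simp only [hd]; ring
  rw [e2] at h2
  have h3 := pot_pos nd
  have k1 : 3/5 * (∫ x, (a * ρ x + b * σ x) ^ (5/3 : ℝ)) ≤ a * (3/5 * ∫ x, ρ x ^ (5/3 : ℝ)) + b * (3/5 * ∫ x, σ x ^ (5/3 : ℝ)) := by
    rw [← integral_const_mul, ← integral_const_mul, ← integral_const_mul, ← integral_const_mul, ← integral_const_mul,
      ← integral_add ((hρ.2.2.2.const_mul _).const_mul _) ((hσ.2.2.2.const_mul _).const_mul _)]
    refine integral_mono ((int53 nc c0).const_mul _) (((hρ.2.2.2.const_mul _).const_mul _).add ((hσ.2.2.2.const_mul _).const_mul _)) (fun x => ?_)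
    simp only
    have h := (convexOn_rpow (p := (5/3 : ℝ)) (by norm_num)).2 (mem_Ici.2 (hρ.2.1 x)) (mem_Ici.2 (hσ.2.1 x)) ha hb hab
    simp only [smul_eq_mul] at h
    linarith
  have k2 : ∫ x, VV z R x * (a * ρ x + b * σ x) = a * (∫ x, VV z R x * ρ x) + b * ∫ x, VV z R x * σ x := by
    rw [← integral_const_mul, ← integral_const_mul, ← integral_add ((vint z R nρ).const_mul a) ((vint z R nσ).const_mul b)]
    congr 1; funext x; ring
  have k3 : ∫ x, (a * ρ x + b * σ x) * pot (fun x => a * ρ x + b * σ x) x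
      = (∫ x, ρ x * pot ρ x) + 2 * b * (∫ x, d x * pot ρ x) + b ^ 2 * ∫ x, d x * pot d x := by
    rw [← h1]
    have : ∀ x, a * ρ x + b * σ x = ρ x + b * d x := fun x => congrFun e0 x
    rw [e0]
    simp_rw [this]
  unfold EF
  rw [k2, k3, h2]
  have ha' : a = 1 - b := by linarith
  have hb1 : b ≤ 1 := by linarith
  have h4 : 0 ≤ b * (1 - b) * ∫ x, d x * pot d x := mul_nonneg (mul_nonneg hb (by linarith)) h3
  rw [ha'] at k1 ⊢
  nlinarith [k1, h4]

lemma VL_convex (hz : ∀ j, 0 ≤ z j) (R : Fin k → E3) : ConvexOn ℝ (Ici 0) (VL z R) := by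
  refine ⟨convex_Ici 0, ?_⟩
  intro x hx y hy a b ha hb hab
  simp only [smul_eq_mul]
  refine le_of_forall_pos_le_add (fun ε hε => ?_)
  obtain ⟨ρ, hρ, m1, e1⟩ := VL_near z R (mem_Ici.1 hx) hε
  obtain ⟨σ, hσ, m2, e2⟩ := VL_near z R (mem_Ici.1 hy) hε
  obtain ⟨hc, hE⟩ := EF_convex z R hρ hσ ha hb hab
  have hm : ∫ x, (a * ρ x + b * σ x) = a * x + b * y := by
    rw [integral_add (hρ.2.2.1.const_mul a) (hσ.2.2.1.const_mul b), integral_const_mul, integral_const_mul, m1, m2]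
  have h1 := VL_le (R := R) hz hc
  rw [hm] at h1
  have h2 : a * EF z R ρ ≤ a * (VL z R x + ε) := mul_le_mul_of_nonneg_left e1.le ha
  have h3 : b * EF z R σ ≤ b * (VL z R y + ε) := mul_le_mul_of_nonneg_left e2.le hb
  have h4 : a * ε + b * ε = ε := by rw [← add_mul, hab, one_mul]
  linarith

lemma EF_bump (hz : ∀ j, 0 ≤ z j) (R : Fin k → E3) {ρ : E3 → ℝ} (hρ : Adm ρ) {m ε : ℝ} (hm : 0 ≤ m) (hε : 0 < ε) :
    ∃ σ, Adm σ ∧ ∫ x, σ x = (∫ x, ρ x) + m ∧ EF z R σ ≤ EF z R ρ + ε := by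
  obtain ⟨hg, hgm⟩ := bump_adm hm
  set g := bump m
  have nρ := nice_of_adm hρ
  have ng := nice_of_adm hg
  obtain ⟨B, hB0, hB⟩ := pot_bdd ng
  set F : ℝ → ℝ := fun t => 3/5 * ((1 - t) * (1 / (1 - t)) ^ (5/3 : ℝ) * (∫ x, ρ x ^ (5/3 : ℝ)) + t ^ (4/3 : ℝ) * ∫ x, g x ^ (5/3 : ℝ))
    - (∫ x, VV z R x * ρ x) + 1/2 * ((∫ x, ρ x * pot ρ x) + 2 * (t * (B * ∫ x, ρ x)) + t * ∫ x, g x * pot g x) with hF
  have hF0 : F 0 = EF z R ρ := by
    simp only [hF, EF]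
    rw [Real.zero_rpow (by norm_num)]
    norm_num
  have hFc : ContinuousAt F 0 := by
    have c1 : ContinuousAt (fun t : ℝ => (1 / (1 - t)) ^ (5/3 : ℝ)) 0 := by
      refine ContinuousAt.rpow_const ?_ (Or.inl (by norm_num))
      refine ContinuousAt.div continuousAt_const (by fun_prop) (by norm_num)
    have c2 : ContinuousAt (fun t : ℝ => t ^ (4/3 : ℝ)) 0 := (Real.continuous_rpow_const (by norm_num)).continuousAt
    simp only [hF]
    fun_prop
  have hev : ∀ᶠ t in 𝓝[>] (0:ℝ), F t < EF z R ρ + ε := by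
    have h1 : ∀ᶠ t in 𝓝 (0:ℝ), F t < EF z R ρ + ε := by
      refine hFc.eventually_lt continuousAt_const ?_
      rw [hF0]; linarith
    exact h1.filter_mono nhdsWithin_le_nhds
  have hev2 : ∀ᶠ t in 𝓝[>] (0:ℝ), 0 < t ∧ t < 1 := Ioo_mem_nhdsGT one_pos
  obtain ⟨t, ht, ht0, ht1⟩ := (hev.and hev2).exists
  have hgt := sc_adm ht0 hg
  have ngt := nice_of_adm hgt
  have nσ : Nice (fun x => ρ x + sc t g x) := nice_add nρ ngt
  have σ0 : ∀ x, 0 ≤ ρ x + sc t g x := fun x => add_nonneg (hρ.2.1 x) (hgt.2.1 x)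
  refine ⟨fun x => ρ x + sc t g x, adm_of_nice nσ σ0, ?_, ?_⟩
  · rw [integral_add hρ.2.2.1 hgt.2.2.1, sc_mass ht0, hgm]
  · refine le_trans ?_ ht.le
    have k1 : 3/5 * (∫ x, (ρ x + sc t g x) ^ (5/3 : ℝ))
        ≤ 3/5 * ((1 - t) * (1 / (1 - t)) ^ (5/3 : ℝ) * (∫ x, ρ x ^ (5/3 : ℝ)) + t ^ (4/3 : ℝ) * ∫ x, g x ^ (5/3 : ℝ)) := by
      have e1 : t ^ (4/3 : ℝ) * (∫ x, g x ^ (5/3 : ℝ)) = t * (1 / t) ^ (5/3 : ℝ) * ∫ x, sc t g x ^ (5/3 : ℝ) := by
        rw [sc_kin ht0 hg.2.1, ← mul_assoc]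
        congr 1
        rw [one_div, Real.inv_rpow ht0.le, ← Real.rpow_neg ht0.le, ← Real.rpow_one_add' ht0.le (by norm_num),
          ← Real.rpow_natCast, ← Real.rpow_add ht0]
        norm_num
      rw [e1]
      refine mul_le_mul_of_nonneg_left ?_ (by norm_num)
      rw [← integral_const_mul, ← integral_const_mul, ← integral_add (hρ.2.2.2.const_mul _) (hgt.2.2.2.const_mul _)]
      refine integral_mono (int53 nσ σ0) ((hρ.2.2.2.const_mul _).add (hgt.2.2.2.const_mul _)) (fun x => ?_)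
      simp only
      refine (conv53 (hρ.2.1 x) (hgt.2.1 x) ht0 ht1).trans (le_of_eq ?_)
      have q1 : ρ x / (1 - t) = (1 / (1 - t)) * ρ x := by ring
      have q2 : sc t g x / t = (1 / t) * sc t g x := by ring
      have q3 : 0 ≤ 1 / (1 - t) := by
        have : 0 < 1 - t := by linarith
        positivity
      rw [q1, q2, Real.mul_rpow q3 (hρ.2.1 x), Real.mul_rpow (by positivity) (hgt.2.1 x)]
      ring
    have k2 : ∫ x, VV z R x * ρ x ≤ ∫ x, VV z R x * (ρ x + sc t g x) := by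
      refine integral_mono (vint z R nρ) (vint z R nσ) (fun x => ?_)
      simp only
      exact mul_le_mul_of_nonneg_left (le_add_of_nonneg_right (hgt.2.1 x)) (VV_nonneg hz R x)
    have k3 : ∫ x, (ρ x + sc t g x) * pot (fun x => ρ x + sc t g x) x
        ≤ (∫ x, ρ x * pot ρ x) + 2 * (t * (B * ∫ x, ρ x)) + t * ∫ x, g x * pot g x := by
      have h := (kop_full (ρh := ρ) nρ).exp nρ ngt 1
      have e2 : (fun x => (ρ x + 1 * sc t g x) * pot (fun y => ρ y + 1 * sc t g y) x)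
          = fun x => (ρ x + sc t g x) * pot (fun x => ρ x + sc t g x) x := by
        simp only [one_mul]
      rw [e2] at h
      rw [h, sc_D ht0, TF_E1_symm _ _ ngt nρ]
      have h5 : ∫ x, ρ x * pot (sc t g) x ≤ t * (B * ∫ x, ρ x) := by
        rw [← integral_const_mul, ← integral_const_mul]
        refine integral_mono (TF_E1_int _ _ nρ.2.1 ngt) ((hρ.2.2.1.const_mul B).const_mul t) (fun x => ?_)
        simp only
        rw [sc_pot ht0]
        have h6 : pot g (t • x) ≤ B := (le_abs_self _).trans (hB _)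
        have h7 : ρ x * (t * pot g (t • x)) ≤ ρ x * (t * B) :=
          mul_le_mul_of_nonneg_left (mul_le_mul_of_nonneg_left h6 ht0.le) (hρ.2.1 x)
        linarith
      linarith
    simp only [hF]
    unfold EF
    linarith

lemma VL_anti (hz : ∀ j, 0 ≤ z j) (R : Fin k → E3) : AntitoneOn (VL z R) (Ici 0) := by
  intro x hx y hy hxy
  refine le_of_forall_pos_le_add (fun ε hε => ?_)
  obtain ⟨ρ, hρ, m1, e1⟩ := VL_near z R (mem_Ici.1 hx) (half_pos hε)
  obtain ⟨σ, hσ, m2, e2⟩ := EF_bump hz R hρ (sub_nonneg.2 hxy) (half_pos hε)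
  have h1 := VL_le (R := R) hz hσ
  rw [m2, m1, add_sub_cancel] at h1
  linarith

lemma VL_mono (hz : ∀ j, 0 ≤ z j) (R : Fin k → E3) {lam : ℝ} (hl : 0 ≤ lam) {a b : ℝ} (ha : 0 < a) (hab : a ≤ b) :
    VL z (fun j => a • R j) lam ≤ VL z (fun j => b • R j) lam := by
  rcases eq_or_lt_of_le hl with h0 | h0
  · -- no electrons
    have : ∀ R : Fin k → E3, VL z R lam = 0 := by
      intro R
      have e : {E | ∃ ρ, Adm ρ ∧ ∫ x, ρ x = lam ∧ EF z R ρ = E} = {0} := by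
        have key : ∀ ρ, Adm ρ → ∫ x, ρ x = 0 → EF z R ρ = 0 := by
          intro ρ hρ hm
          have h1 : ρ =ᵐ[volume] fun _ => 0 := (integral_eq_zero_iff_of_nonneg hρ.2.1 hρ.2.2.1).1 hm
          rw [← FE_eq, FE_congr h1]
          unfold FE
          simp
        ext E
        simp only [Set.mem_singleton_iff, Set.mem_ofPred_eq]
        constructor
        · rintro ⟨ρ, h1, h2, rfl⟩
          exact key ρ h1 (h2.trans h0.symm)
        · rintro rfl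
          have hb := bump_adm (le_refl (0:ℝ))
          exact ⟨bump 0, hb.1, hb.2.trans h0, key _ hb.1 hb.2⟩
      unfold VL
      rw [e, csInf_singleton]
    rw [this, this]
  refine le_of_forall_pos_le_add (fun ε hε => ?_)
  obtain ⟨Φ₀, hΦ₀, hs⟩ := subgrad _ (VL_convex hz (fun j => a • R j)) (VL_anti hz _) h0
  set δ := ε / lam with hδ
  have hδ0 : 0 < δ := div_pos hε h0
  have hδl : δ * lam = ε := by rw [hδ]; field_simp
  have hΦ : 0 < Φ₀ + δ := by linarith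
  obtain ⟨ρ, hρ⟩ := exists_ELs (R := fun j => a • R j) hz hΦ
  obtain ⟨ρ', hρ'⟩ := exists_ELs (R := fun j => b • R j) hz hΦ
  have h1 := H_mono hz R hΦ ha hab hρ hρ'
  have am := adm_of_nice hρ.nice hρ.nonneg
  have hm0 : 0 ≤ ∫ x, ρ x := integral_nonneg hρ.nonneg
  have h2 := hs _ hm0
  have h3 := VL_le (R := fun j => a • R j) hz am
  have h4 : EF z (fun j => b • R j) ρ' + (Φ₀ + δ) * (∫ x, ρ' x) - (Φ₀ + δ) * lam ≤ VL z (fun j => b • R j) lam := by
    refine le_csInf (VL_ne z _ hl) ?_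
    rintro E ⟨σ, h5, h6, rfl⟩
    have := EL_min hρ' h5
    rw [h6] at this
    linarith
  nlinarith [h1, h2, h3, h4, mul_nonneg hδ0.le hm0]

/-! ### the statement -/

/-- The densities: nonnegative functions in `L¹ ∩ L^{5/3}` of `ℝ³`. -/
def Density (ρ : EuclideanSpace ℝ (Fin 3) → ℝ) : Prop :=
  (∀ x, 0 ≤ ρ x) ∧ Integrable ρ ∧ Integrable (fun x => ρ x ^ (5/3 : ℝ))

/-- The nuclear repulsion `U = ∑_{i<j} z_i z_j |R_i - R_j|⁻¹`. -/
noncomputable def nucRep {k : ℕ} (z : Fin k → ℝ) (R : Fin k → EuclideanSpace ℝ (Fin 3)) : ℝ :=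
  ∑ i, ∑ j ∈ Finset.Ioi i, z i * z j * ‖R i - R j‖⁻¹

/-- The Thomas-Fermi functional. -/
noncomputable def TFfun {k : ℕ} (γ : ℝ) (z : Fin k → ℝ) (R : Fin k → EuclideanSpace ℝ (Fin 3)) (ρ : EuclideanSpace ℝ (Fin 3) → ℝ) : ℝ :=
  3/5 * γ * (∫ x, ρ x ^ (5/3 : ℝ)) - (∫ x, (∑ i, z i * ‖x - R i‖⁻¹) * ρ x)
    + 1/2 * (∫ x, ∫ y, ρ x * ρ y / ‖x - y‖) + nucRep z R

/-- The set of values of the Thomas-Fermi functional on densities of mass `lam`. -/
def values {k : ℕ} (γ : ℝ) (z : Fin k → ℝ) (R : Fin k → EuclideanSpace ℝ (Fin 3)) (lam : ℝ) : Set ℝ :=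
  {E | ∃ ρ, Density ρ ∧ ∫ x, ρ x = lam ∧ TFfun γ z R ρ = E}

/-- The Thomas-Fermi energy `E(λ)`. -/
noncomputable def energy {k : ℕ} (γ : ℝ) (z : Fin k → ℝ) (R : Fin k → EuclideanSpace ℝ (Fin 3)) (lam : ℝ) : ℝ :=
  sInf (values γ z R lam)

/-- The electronic energy `e(λ) = E(λ) - U`. -/
noncomputable def elEnergy {k : ℕ} (γ : ℝ) (z : Fin k → ℝ) (R : Fin k → EuclideanSpace ℝ (Fin 3)) (lam : ℝ) : ℝ :=
  energy γ z R lam - nucRep z R

lemma TFfun_congr (γ : ℝ) (z : Fin k → ℝ) (R : Fin k → E3) {f g : E3 → ℝ} (h : f =ᵐ[volume] g) :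
    TFfun γ z R f = TFfun γ z R g := by
  unfold TFfun
  have e1 : ∫ x, f x ^ (5/3 : ℝ) = ∫ x, g x ^ (5/3 : ℝ) := by
    refine integral_congr_ae ?_
    filter_upwards [h] with x hx
    rw [hx]
  have e2 : ∫ x, (∑ i, z i * ‖x - R i‖⁻¹) * f x = ∫ x, (∑ i, z i * ‖x - R i‖⁻¹) * g x := by
    refine integral_congr_ae ?_
    filter_upwards [h] with x hx
    rw [hx]
  have e3 : (∫ x, (∫ y, f x * f y / ‖x - y‖)) = ∫ x, (∫ y, g x * g y / ‖x - y‖) := by
    refine integral_congr_ae ?_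
    filter_upwards [h] with x hx
    refine integral_congr_ae ?_
    filter_upwards [h] with y hy
    rw [hx, hy]
  rw [e1, e2, e3]

lemma TFfun_sc {γ : ℝ} (hγ : 0 < γ) (z : Fin k → ℝ) (R : Fin k → E3) {σ : E3 → ℝ} (hσ : Adm σ) :
    TFfun γ z R (sc γ⁻¹ σ) = γ⁻¹ * EF z (fun j => γ⁻¹ • R j) σ + nucRep z R := by
  have hγ' : 0 < γ⁻¹ := inv_pos.2 hγ
  unfold TFfun EF
  rw [TF_E1_dbl, sc_kin hγ' hσ.2.1, sc_D hγ']
  have e1 : (fun x => (∑ i, z i * ‖x - R i‖⁻¹) * sc γ⁻¹ σ x)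
      = fun x => VV z (fun j => (γ⁻¹)⁻¹ • ((fun i => γ⁻¹ • R i) j)) x * sc γ⁻¹ σ x := by
    funext x
    unfold VV
    congr 1
    refine Finset.sum_congr rfl (fun i _ => ?_)
    show z i * ‖x - R i‖⁻¹ = z i / ‖x - (γ⁻¹)⁻¹ • (γ⁻¹ • R i)‖
    rw [inv_smul_smul₀ hγ'.ne', div_eq_mul_inv]
  rw [e1, sc_VV hγ' z (fun i => γ⁻¹ • R i) σ]
  field_simp

lemma sc_sc {t : ℝ} (ht : t ≠ 0) (ρ : E3 → ℝ) : sc t⁻¹ (sc t ρ) = ρ := by
  funext x
  simp only [sc]
  rw [smul_smul, mul_inv_cancel₀ ht, one_smul]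
  field_simp

lemma values_eq {γ : ℝ} (hγ : 0 < γ) (z : Fin k → ℝ) (R : Fin k → E3) (lam : ℝ) :
    values γ z R lam = (fun E => γ⁻¹ * E + nucRep z R) '' {E | ∃ ρ, Adm ρ ∧ ∫ x, ρ x = lam ∧ EF z (fun j => γ⁻¹ • R j) ρ = E} := by
  have hγ' : 0 < γ⁻¹ := inv_pos.2 hγ
  ext E
  constructor
  · rintro ⟨ρ, h1, h2, rfl⟩
    obtain ⟨τ, hτ, hae⟩ := AA_mod (ρ := ρ) h1
    have hs := sc_adm hγ hτ
    refine ⟨_, ⟨sc γ τ, hs, ?_, rfl⟩, ?_⟩
    · rw [sc_mass hγ, ← h2]; exact (integral_congr_ae hae).symm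
    · simp only
      rw [← TFfun_sc hγ z R hs, sc_sc hγ.ne', TFfun_congr γ z R hae]
  · rintro ⟨_, ⟨σ, h1, h2, rfl⟩, rfl⟩
    have hs := sc_adm hγ' h1
    exact ⟨sc γ⁻¹ σ, ⟨hs.2.1, hs.2.2.1, hs.2.2.2⟩, by rw [sc_mass hγ', h2], TFfun_sc hγ z R h1⟩

/-- The infimum defining the energy is over a nonempty set that is bounded below. -/
theorem values_ok {γ : ℝ} (hγ : 0 < γ) (hz : ∀ j, 0 < z j) (R : Fin k → E3) {lam : ℝ} (hl : 0 ≤ lam) :
    (values γ z R lam).Nonempty ∧ BddBelow (values γ z R lam) := by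
  rw [values_eq hγ]
  have hm : Monotone (fun E : ℝ => γ⁻¹ * E + nucRep z R) := fun a b h => by
    have := mul_le_mul_of_nonneg_left h (inv_pos.2 hγ).le
    simp only; linarith
  exact ⟨(VL_ne z _ hl).image _, hm.map_bddBelow (VL_bdd (fun j => (hz j).le) _ lam)⟩

lemma elEnergy_eq {γ : ℝ} (hγ : 0 < γ) (hz : ∀ j, 0 < z j) (R : Fin k → E3) {lam : ℝ} (hl : 0 ≤ lam) :
    elEnergy γ z R lam = γ⁻¹ * VL z (fun j => γ⁻¹ • R j) lam := by
  have hm : Monotone (fun E : ℝ => γ⁻¹ * E + nucRep z R) := fun a b h => by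
    have := mul_le_mul_of_nonneg_left h (inv_pos.2 hγ).le
    simp only; linarith
  unfold elEnergy energy
  rw [values_eq hγ, ← hm.map_csInf_of_continuousAt (by fun_prop) (VL_ne z _ hl) (VL_bdd (fun j => (hz j).le) _ lam)]
  unfold VL
  ring

/-- **The electronic Thomas-Fermi energy increases under dilation.** For all nuclear charges, distinct
positions and `λ ≥ 0`, the function `l ↦ e(λ, l)` is monotone increasing on `(0, ∞)`, where the
nuclei are at `l R_i`. -/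
theorem result : ∀ (k : ℕ) (γ : ℝ) (z : Fin k → ℝ) (R : Fin k → EuclideanSpace ℝ (Fin 3)), 1 ≤ k → 0 < γ → (∀ i, 0 < z i) →
    Function.Injective R → ∀ lam : ℝ, 0 ≤ lam →
      MonotoneOn (fun l : ℝ => elEnergy γ z (fun i => l • R i) lam) (Set.Ioi 0) := by
  intro k γ z R _ hγ hz _ lam hl a ha b hb hab
  simp only
  have hγ' : 0 < γ⁻¹ := inv_pos.2 hγ
  rw [elEnergy_eq hγ hz _ hl, elEnergy_eq hγ hz _ hl]
  refine mul_le_mul_of_nonneg_left ?_ hγ'.le
  have e : ∀ c : ℝ, (fun j => γ⁻¹ • (c • R j)) = fun j => (γ⁻¹ * c) • R j := fun c => by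
    funext j; rw [smul_smul]
  rw [e, e]
  exact VL_mono (fun j => (hz j).le) R hl (mul_pos hγ' ha) (mul_le_mul_of_nonneg_left hab hγ'.le)

end Pool.Agent.Results.MP_405077_mp.DilationMonotone
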